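import Pool.Agent.Helper61.VGroup
import Pool.Agent.Helper61.NoTwoFactor

set_option autoImplicit false

/-! Every group of automorphisms acting quasi-transitively contains the acting group. -/

namespace Pool.Agent.Helper61

section

variable {Γ : Type} [Group Γ] {a b : Γ}

namespace Hyp

variable (H : Hyp a b)

/-- the elements of `Γ` whose action lies in `K` -/
def Pull (K : Subgroup (H.Gr ≃g H.Gr)) : Subgroup Γ where
  carrier := {γ | H.Lm γ ∈ K}
  mul_mem' := by
    intro x y hx hy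
    have h : H.Lm (x * y) = H.Lm x * H.Lm y := by
      apply RelIso.ext
      intro v
      exact H.Lm_mul x y v
    show H.Lm (x * y) ∈ K
    rw [h]
    exact K.mul_mem hx hy
  one_mem' := by
    have h : H.Lm 1 = 1 := by
      apply RelIso.ext
      intro v
      exact H.Lm_one v
    show H.Lm 1 ∈ K
    rw [h]
    exact K.one_mem
  inv_mem' := by
    intro x hx
    have h : H.Lm x⁻¹ = (H.Lm x)⁻¹ := by
      rw [eq_inv_iff_mul_eq_one]
      apply RelIso.ext
      intro v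
      show H.Lm x⁻¹ (H.Lm x v) = v
      rw [← H.Lm_mul, inv_mul_cancel, H.Lm_one]
    show H.Lm x⁻¹ ∈ K
    rw [h]
    exact K.inv_mem hx

theorem Lm_mem (K : Subgroup (H.Gr ≃g H.Gr)) (S : Finset (VV b))
    (hS : ∀ v, ∃ s ∈ S, ∃ φ ∈ K, φ s = v) (γ : Γ) : H.Lm γ ∈ K := by
  classical
  choose σ hσS φ hφ hφσ using hS
  have hfinset : (⋃ s ∈ S, {ψ : H.Gr ≃g H.Gr | ψ (cs b 1) = s}).Finite :=
    Set.Finite.biUnion S.finite_toSet (fun s _ => H.maps_finite _ s)
  let v0 : Γ → VV b := fun γ => H.Lm γ⁻¹ (cs b 1)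
  let Φ : Γ → (H.Gr ≃g H.Gr) := fun γ => (H.Lm γ⁻¹).trans (φ (v0 γ)).symm
  have hΦ : ∀ γ, Φ γ ∈ ⋃ s ∈ S, {ψ : H.Gr ≃g H.Gr | ψ (cs b 1) = s} := by
    intro γ
    rw [Set.mem_iUnion₂]
    refine ⟨σ (v0 γ), hσS _, ?_⟩
    show (φ (v0 γ)).symm (v0 γ) = σ (v0 γ)
    nth_rw 2 [← hφσ (v0 γ)]
    exact (φ (v0 γ)).symm_apply_apply _
  have hK : Finite (Γ ⧸ H.Pull K) := by
    have := hfinset.to_subtype
    refine Finite.of_injective
      (fun q : Γ ⧸ H.Pull K => (⟨Φ q.out, hΦ _⟩ :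
        (⋃ s ∈ S, {ψ : H.Gr ≃g H.Gr | ψ (cs b 1) = s} : Set (H.Gr ≃g H.Gr)))) ?_
    intro q r hqr
    have heq : Φ q.out = Φ r.out := congrArg Subtype.val hqr
    rw [← q.out_eq', ← r.out_eq']
    rw [QuotientGroup.eq]
    set x := q.out with hx
    set y := r.out with hy
    have key : H.Lm (x⁻¹ * y) = (φ (v0 x)) * (φ (v0 y))⁻¹ := by
      apply RelIso.ext
      intro w
      show H.Lm (x⁻¹ * y) w = (φ (v0 x)) ((φ (v0 y)).symm w)
      have h1 : (Φ x) (H.Lm y w) = (Φ y) (H.Lm y w) := by rw [heq]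
      have h3 : (φ (v0 x)).symm (H.Lm x⁻¹ (H.Lm y w)) = (φ (v0 y)).symm (H.Lm y⁻¹ (H.Lm y w)) := h1
      rw [← H.Lm_mul, ← H.Lm_mul, inv_mul_cancel, H.Lm_one] at h3
      rw [← h3, (φ (v0 x)).apply_symm_apply]
    show H.Lm (x⁻¹ * y) ∈ K
    rw [key]
    exact K.mul_mem (hφ _) (K.inv_mem (hφ _))
  have hfi : (H.Pull K).FiniteIndex := Subgroup.finiteIndex_of_finite_quotient
  have htop := H.nofi _ hfi
  have : γ ∈ H.Pull K := by rw [htop]; exact Subgroup.mem_top _
  exact this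

include H in
/-- the same with finitely many orbits in Mathlib's words -/
theorem Lm_mem' (K : Subgroup (H.Gr ≃g H.Gr)) (hK : Finite (MulAction.orbitRel.Quotient K (VV b)))
    (γ : Γ) : H.Lm γ ∈ K := by
  classical
  have := Fintype.ofFinite (MulAction.orbitRel.Quotient K (VV b))
  refine H.Lm_mem K (Finset.univ.image
    (fun q : MulAction.orbitRel.Quotient K (VV b) => Quotient.out q)) ?_ γ
  intro v
  refine ⟨Quotient.out (Quotient.mk (MulAction.orbitRel K (VV b)) v), ?_, ?_⟩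
  · rw [Finset.mem_image]
    exact ⟨_, Finset.mem_univ _, rfl⟩
  · have h := Quotient.mk_out (s := MulAction.orbitRel K (VV b)) v
    have h2 : (MulAction.orbitRel K (VV b)).r v (Quotient.out (Quotient.mk (MulAction.orbitRel K (VV b)) v)) :=
      (MulAction.orbitRel K (VV b)).symm h
    obtain ⟨g, hg⟩ := h2
    exact ⟨g.1, g.2, hg⟩

end Hyp

/-- the pair of the frozen proof satisfies the hypotheses -/
theorem hypGm : Hyp ga gb :=
  { a3 := ga3
    b2 := gb2
    gen := closure_Gm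
    a1 := n0a
    b1 := n0b
    n2 := n2
    n3 := n3
    r25 := gab25
    nofi := no_finite_index }

end

end Pool.Agent.Helper61
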